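import Pool.Agent.H88.RO.Final

set_option autoImplicit false

/-!
# Short passwords: `l n = size n * size (size n)`

Numerical facts and a program for the length `l n = |n| * ||n||` (binary lengths), the length of
the passwords in the world with short advice.
-/

namespace Pool.Agent.H97.EW

open Pool.Agent.H88.RO Pool.Agent.H88.RO.Tr

/-- `|n| * ||n||`, binary lengths, of order `log n * log log n` -/
def ellB (n : ℕ) : ℕ := Nat.size n * Nat.size (Nat.size n)

theorem size_le_self' (n : ℕ) : Nat.size n ≤ n := by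
  rw [Nat.size_le]
  exact Nat.lt_two_pow_self

theorem ellB_le (n : ℕ) : ellB n ≤ n * n :=
  Nat.mul_le_mul (size_le_self' n) ((size_le_self' _).trans (size_le_self' n))

theorem ellB_mono {m n : ℕ} (h : m ≤ n) : ellB m ≤ ellB n :=
  Nat.mul_le_mul (Nat.size_le_size h) (Nat.size_le_size (Nat.size_le_size h))

theorem size_mul_le (a b : ℕ) : Nat.size (a * b) ≤ Nat.size a + Nat.size b := by
  rw [Nat.size_le, pow_add]
  rcases Nat.eq_zero_or_pos b with rfl | hb
  · rw [Nat.mul_zero]
    positivity
  · exact Nat.mul_lt_mul_of_lt_of_le (Nat.lt_size_self a) (Nat.lt_size_self b).le (by positivity)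

theorem one_le_size {n : ℕ} (h : 1 ≤ n) : 1 ≤ Nat.size n :=
  Nat.size_pos.mpr h

theorem size_le_ellB (n : ℕ) : Nat.size n ≤ ellB n := by
  rcases Nat.eq_zero_or_pos (Nat.size n) with h | h
  · rw [h]; exact Nat.zero_le _
  · exact Nat.le_mul_of_pos_right _ (one_le_size h)

/-- a polynomial changes the length only by a constant factor -/
theorem ellB_poly (P : Polynomial ℕ) : ∃ C : ℕ, ∀ n, ellB (P.eval n) ≤ C * ellB n + C := by
  obtain ⟨D, hD⟩ := exists_pow_bound P
  refine ⟨(D + 1) * Nat.size (D + 1) + (D + 1) + ellB (P.eval 0) + ellB (P.eval 1),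
    fun n => ?_⟩
  rcases Nat.lt_or_ge n 2 with hn | hn
  · have : n = 0 ∨ n = 1 := by omega
    rcases this with rfl | rfl
    · refine le_trans ?_ (Nat.le_add_left _ _)
      omega
    · refine le_trans ?_ (Nat.le_add_left _ _)
      omega
  · have hs : 1 ≤ Nat.size n := one_le_size (by omega)
    have h1 : Nat.size (P.eval n) ≤ (D + 1) * Nat.size n := by
      rw [Nat.size_le]
      refine lt_of_le_of_lt (hD n hn) ?_
      calc n ^ D ≤ (2 ^ Nat.size n) ^ D := Nat.pow_le_pow_left (Nat.lt_size_self n).le _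
        _ = 2 ^ (Nat.size n * D) := (pow_mul _ _ _).symm
        _ < 2 ^ ((D + 1) * Nat.size n) := by
            refine Nat.pow_lt_pow_right (by norm_num) ?_
            have e : (D + 1) * Nat.size n = Nat.size n * D + Nat.size n := by ring
            omega
    have h2 : Nat.size (Nat.size (P.eval n)) ≤ Nat.size (D + 1) + Nat.size (Nat.size n) :=
      (Nat.size_le_size h1).trans (size_mul_le _ _)
    have h3 : ellB (P.eval n) ≤ ((D + 1) * Nat.size n) *
        (Nat.size (D + 1) + Nat.size (Nat.size n)) := Nat.mul_le_mul h1 h2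
    have h4 : ((D + 1) * Nat.size n) * (Nat.size (D + 1) + Nat.size (Nat.size n)) =
        (D + 1) * Nat.size (D + 1) * Nat.size n + (D + 1) * ellB n := by
      unfold ellB; ring
    have h5 : (D + 1) * Nat.size (D + 1) * Nat.size n ≤ (D + 1) * Nat.size (D + 1) * ellB n :=
      Nat.mul_le_mul_left _ (size_le_ellB n)
    have h6 : (D + 1) * Nat.size (D + 1) * ellB n + (D + 1) * ellB n =
        ((D + 1) * Nat.size (D + 1) + (D + 1)) * ellB n := by ring
    have h7 : ((D + 1) * Nat.size (D + 1) + (D + 1)) * ellB n ≤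
        ((D + 1) * Nat.size (D + 1) + (D + 1) + ellB (P.eval 0) + ellB (P.eval 1)) * ellB n :=
      Nat.mul_le_mul_right _ (by omega)
    omega

/-- a polynomial is below the exponential function -/
theorem poly_lt_two_pow (P : Polynomial ℕ) : ∃ b0, ∀ b, b0 ≤ b → P.eval b < 2 ^ b := by
  obtain ⟨D, hD⟩ := exists_pow_bound P
  refine ⟨max 2 ((D + 1) ^ (D + 1) + 1), fun b hb => ?_⟩
  have hb2 : 2 ≤ b := (le_max_left _ _).trans hb
  have hbc : (D + 1) ^ (D + 1) + 1 ≤ b := (le_max_right _ _).trans hb
  refine lt_of_le_of_lt (hD b hb2) ?_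
  have h1 := pow_le_two_pow (D + 1) b
  have hpos : 0 < b ^ D := by positivity
  have h2 : b ^ D * ((D + 1) ^ (D + 1) + 1) ≤ (D + 1) ^ (D + 1) * 2 ^ b :=
    (Nat.mul_le_mul_left _ hbc).trans (by rw [← pow_succ]; exact h1)
  by_contra hcon
  push Not at hcon
  have h3 : (D + 1) ^ (D + 1) * 2 ^ b ≤ (D + 1) ^ (D + 1) * b ^ D :=
    Nat.mul_le_mul_left _ hcon
  have h4 : b ^ D * ((D + 1) ^ (D + 1) + 1) = (D + 1) ^ (D + 1) * b ^ D + b ^ D := by ring
  omega

/-- `n ^ D < 2 ^ l(n)` for large `n` -/
theorem pow_lt_two_pow_ellB (D : ℕ) {n : ℕ} (h : 2 ^ (2 ^ D) ≤ n) : n ^ D < 2 ^ ellB n := by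
  have h1 : 2 ^ D < Nat.size n := Nat.lt_size.mpr h
  have h2 : D < Nat.size (Nat.size n) := Nat.lt_size.mpr h1.le
  have hn : 1 ≤ n := le_trans (Nat.one_le_two_pow) h
  calc n ^ D ≤ n ^ Nat.size (Nat.size n) := Nat.pow_le_pow_right hn h2.le
    _ < (2 ^ Nat.size n) ^ Nat.size (Nat.size n) :=
        Nat.pow_lt_pow_left (Nat.lt_size_self n) (by omega)
    _ = 2 ^ ellB n := by rw [← pow_mul]; rfl

/-- **The numerical hypothesis for polynomial time and short passwords.** -/
theorem numB (e : ℕ) (P : Polynomial ℕ) : ∃ b0, ∀ b, b0 ≤ b →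
    P.eval (e * b ^ e + e) < 2 ^ (Polynomial.X : Polynomial ℕ).eval b ∧
      ∀ n, (Polynomial.X : Polynomial ℕ).eval b ≤ n → P.eval (e * b ^ e + e) < 2 ^ ellB n := by
  have hev : ∀ b, (P.comp (Polynomial.C e * Polynomial.X ^ e + Polynomial.C e)).eval b =
      P.eval (e * b ^ e + e) := by
    intro b
    simp only [Polynomial.eval_comp, Polynomial.eval_add, Polynomial.eval_mul,
      Polynomial.eval_C, Polynomial.eval_pow, Polynomial.eval_X]
  obtain ⟨b1, hb1⟩ := poly_lt_two_pow (P.comp (Polynomial.C e * Polynomial.X ^ e +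
    Polynomial.C e))
  obtain ⟨D, hD⟩ := exists_pow_bound (P.comp (Polynomial.C e * Polynomial.X ^ e +
    Polynomial.C e))
  refine ⟨max (max 2 b1) (2 ^ (2 ^ D)), fun b hb => ⟨?_, fun n hn => ?_⟩⟩
  · rw [Polynomial.eval_X, ← hev]
    exact hb1 b (by omega)
  · rw [Polynomial.eval_X] at hn
    rw [← hev]
    refine lt_of_le_of_lt (hD b (by omega)) ?_
    exact lt_of_le_of_lt (Nat.pow_le_pow_left hn D) (pow_lt_two_pow_ellB D (by omega))

/-! ### the program -/

variable {O : List Bool → Bool}

/-- one step: the state is `node k (node p v)`, `k` counts the doublings of `p` -/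
def sstep (s : Tr) : Tr :=
  if dropU (snd (snd s)) (fst (snd s)) = leaf then
    node (node leaf (fst s)) (node (addU (fst (snd s)) (ulen (fst (snd s)))) (snd (snd s)))
  else s

/-- the binary length, in unary -/
def szU (v : Tr) : Tr := fst (sstep^[len v] (node leaf (node (num 1) v)))

theorem sstep_iter (v : Tr) (t : ℕ) : sstep^[t] (node leaf (node (num 1) v)) =
    node (num (min t (Nat.size (len v)))) (node (num (2 ^ min t (Nat.size (len v)))) v) := by
  induction t with
  | zero => simp [num]
  | succ t ih =>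
    rw [Function.iterate_succ_apply', ih, sstep]
    simp only [fst_node, snd_node, ulen_eq, addU_num', len_num, dropU_eq_leaf]
    rcases Nat.lt_or_ge t (Nat.size (len v)) with h | h
    · have h1 : min t (Nat.size (len v)) = t := by omega
      have h2 : min (t + 1) (Nat.size (len v)) = t + 1 := by omega
      rw [h1, h2, if_pos (Nat.lt_size.mp h)]
      have e : 2 ^ (t + 1) = 2 ^ t + 2 ^ t := by ring
      rw [e]
      rfl
    · have h1 : min t (Nat.size (len v)) = Nat.size (len v) := by omega
      have h2 : min (t + 1) (Nat.size (len v)) = Nat.size (len v) := by omega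
      rw [h1, h2, if_neg]
      have := Nat.lt_size_self (len v)
      omega

@[simp] theorem szU_eq (v : Tr) : szU v = num (Nat.size (len v)) := by
  rw [szU, sstep_iter, fst_node]
  congr 1
  have := size_le_self' (len v)
  omega

theorem FP_sstep : FP O sstep := by
  unfold sstep
  have h0 : FP O (fun s : Tr => s) := FP.id'
  have h1 : FP O (fun s => fst s) := FP.fst' h0
  have h2 : FP O (fun s => snd (snd s)) := FP.snd' (FP.snd' h0)
  have h3 : FP O (fun s => fst (snd s)) := FP.fst' (FP.snd' h0)
  exact FP.ite' (FP.dropU' h2 h3) (FP.node' (FP.node' FP.leaf' h1)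
    (FP.node' (FP.addU' h3 (FP.ulen' h3)) h2)) h0

theorem FP.szU' {F : Tr → Tr} (hF : FP O F) : FP O (fun v => szU (F v)) := by
  refine FP.fst' (FP.iterate' FP_sstep hF (FP.node' FP.leaf' (FP.node' (FP.const' _) hF))
    ⟨8 * Polynomial.X + 20, fun n x i hi => ?_⟩)
  simp only [Polynomial.eval_add, Polynomial.eval_mul, Polynomial.eval_ofNat, Polynomial.eval_X]
  have key : ∀ i, snd (snd (sstep^[i] x)) = snd (snd x) ∧
      size (fst (sstep^[i] x)) ≤ size (fst x) + 2 * i ∧
      size (sstep^[i] x) ≤ 6 * size x + 2 * i + 10 := by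
    intro i
    induction i with
    | zero => refine ⟨rfl, by simp, by simp; omega⟩
    | succ i ih =>
      obtain ⟨h1, h2, h3⟩ := ih
      rw [Function.iterate_succ_apply', sstep, h1]
      split_ifs with h
      · rw [dropU_eq_leaf] at h
        refine ⟨by simp, ?_, ?_⟩
        · simp only [fst_node, size]; omega
        · simp only [size, size_num, ulen_eq, addU_num']
          have a1 := size_snd_le x
          have a2 := size_snd_le (snd x)
          have a3 := len_le_size (snd (snd x))
          have a4 := size_fst_le x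
          omega
      · exact ⟨h1, by omega, by omega⟩
  have h4 := (key i).2.2
  have h5 := len_le_size n
  omega

/-- the program for the length of the passwords -/
def lT (v : Tr) : Tr := mulU (szU v) (szU (szU v))

@[simp] theorem lT_eq (v : Tr) : lT v = num (ellB (len v)) := by
  rw [lT, mulU_eq, szU_eq, szU_eq, len_num, len_num]
  rfl

theorem FP.lT' {F : Tr → Tr} (hF : FP O F) : FP O (fun v => lT (F v)) :=
  FP.mulU' (FP.szU' hF) (FP.szU' (FP.szU' hF))

end Pool.Agent.H97.EW
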