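import Pool.Agent.H97.EW.NumB

set_option autoImplicit false

/-!
# A superpolynomial time bound for the world with short passwords

`tauB n = 2 ^ (|n| * |||n|||)` (binary lengths), of order `n ^ (log log log n)`, is larger than
every polynomial, and all polynomials of it are smaller than `2 ^ l(n)`.
-/

namespace Pool.Agent.H97.EW

open Pool.Agent.H88.RO Pool.Agent.H88.RO.Tr

/-- a time bound of order `n ^ (log log log n)` -/
def tauB (n : ℕ) : ℕ := 2 ^ (Nat.size n * Nat.size (Nat.size (Nat.size n)))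

theorem tauB_pos (n : ℕ) : 1 ≤ tauB n := Nat.one_le_two_pow

theorem two_pow_lt_size {k n : ℕ} (h : 2 ^ k ≤ n) : k < Nat.size n := Nat.lt_size.mpr h

theorem two_pow_size_le {n : ℕ} (h : 1 ≤ n) : 2 ^ Nat.size n ≤ 2 * n := by
  have h1 : 1 ≤ Nat.size n := one_le_size h
  have h2 : 2 ^ (Nat.size n - 1) ≤ n := Nat.lt_size.mp (by omega)
  obtain ⟨k, hk⟩ : ∃ k, Nat.size n = k + 1 := ⟨Nat.size n - 1, by omega⟩
  rw [hk, Nat.add_sub_cancel] at h2
  rw [hk, pow_succ]
  omega

/-- `D (c + |s|) < s` for large `s` -/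
theorem size_small (D c : ℕ) : ∃ s0, ∀ s, s0 ≤ s → D * (c + Nat.size s) < s := by
  obtain ⟨u0, hu⟩ := poly_lt_two_pow (Polynomial.C (2 * D) * (Polynomial.C c + Polynomial.X))
  refine ⟨2 ^ u0, fun s hs => ?_⟩
  have h1 : u0 < Nat.size s := two_pow_lt_size hs
  have h2 := hu (Nat.size s) h1.le
  simp only [Polynomial.eval_mul, Polynomial.eval_add, Polynomial.eval_C,
    Polynomial.eval_X] at h2
  have h3 : 1 ≤ s := le_trans Nat.one_le_two_pow hs
  have h4 := two_pow_size_le h3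
  have h5 : 2 * D * (c + Nat.size s) = 2 * (D * (c + Nat.size s)) := by ring
  omega

/-- polynomials of `C * tauB n` are below `2 ^ l(n)` -/
theorem poly_tauB_lt (C : ℕ) (P : Polynomial ℕ) : ∃ b0, ∀ b, b0 ≤ b →
    P.eval (C * tauB b) < 2 ^ ellB b := by
  obtain ⟨D, hD⟩ := exists_pow_bound P
  obtain ⟨s0, hs0⟩ := size_small D (C + 1)
  refine ⟨2 ^ (2 ^ s0), fun b hb => ?_⟩
  have hb1 : 1 ≤ b := le_trans Nat.one_le_two_pow hb
  have h1 : 2 ^ s0 < Nat.size b := two_pow_lt_size hb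
  have h2 : s0 < Nat.size (Nat.size b) := two_pow_lt_size h1.le
  have h3 := hs0 _ h2.le
  have hs : 1 ≤ Nat.size b := one_le_size hb1
  have hC : C + 1 ≤ 2 ^ (C + 1) := Nat.lt_two_pow_self.le
  have h4 : 2 ≤ (C + 1 + 1) * tauB b := by
    have := tauB_pos b
    nlinarith
  have h5 : P.eval (C * tauB b) ≤ P.eval ((C + 1 + 1) * tauB b) :=
    poly_mono P (Nat.mul_le_mul_right _ (by omega))
  have h6 : (C + 1 + 1) ≤ 2 ^ (C + 1) := Nat.lt_two_pow_self
  have h7 : (C + 1 + 1) * tauB b ≤ 2 ^ (C + 1 + Nat.size b * Nat.size (Nat.size (Nat.size b))) := by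
    rw [pow_add]
    exact Nat.mul_le_mul_right _ h6
  calc P.eval (C * tauB b) ≤ ((C + 1 + 1) * tauB b) ^ D := h5.trans (hD _ h4)
    _ ≤ (2 ^ (C + 1 + Nat.size b * Nat.size (Nat.size (Nat.size b)))) ^ D :=
        Nat.pow_le_pow_left h7 _
    _ = 2 ^ ((C + 1 + Nat.size b * Nat.size (Nat.size (Nat.size b))) * D) := (pow_mul _ _ _).symm
    _ < 2 ^ ellB b := by
        refine Nat.pow_lt_pow_right (by norm_num) ?_
        unfold ellB
        have e1 : (C + 1 + Nat.size b * Nat.size (Nat.size (Nat.size b))) * D ≤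
            Nat.size b * (D * (C + 1 + Nat.size (Nat.size (Nat.size b)))) := by
          have a1 : C + 1 ≤ Nat.size b * (C + 1) := Nat.le_mul_of_pos_left _ hs
          have a2 : Nat.size b * (D * (C + 1 + Nat.size (Nat.size (Nat.size b)))) =
            (Nat.size b * (C + 1) + Nat.size b * Nat.size (Nat.size (Nat.size b))) * D := by ring
          rw [a2]
          exact Nat.mul_le_mul_right _ (by omega)
        exact lt_of_le_of_lt e1 (Nat.mul_lt_mul_of_pos_left h3 hs)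

/-- **The numerical hypothesis for the superpolynomial time bound and short passwords.** -/
theorem smallB (κ C : ℕ) (P : Polynomial ℕ) : ∃ b0, ∀ b m, b0 ≤ b → b ^ (κ + 1) ≤ m →
    P.eval (C * tauB b) < 2 ^ ellB m := by
  obtain ⟨b0, hb0⟩ := poly_tauB_lt C P
  refine ⟨b0 + 1, fun b m hb hm => ?_⟩
  refine lt_of_lt_of_le (hb0 b (by omega)) (Nat.pow_le_pow_right (by norm_num) (ellB_mono ?_))
  exact (Nat.le_self_pow (by omega) b).trans hm

/-- the length is at most `n` for large `n` -/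
theorem ellB_le_self : ∃ b0, ∀ b, b0 ≤ b → ellB b ≤ b := by
  obtain ⟨b2, hb2⟩ := poly_lt_two_pow (2 * Polynomial.X * Polynomial.X)
  refine ⟨2 ^ b2, fun b hb => ?_⟩
  have hb' : 1 ≤ b := le_trans Nat.one_le_two_pow hb
  have h1 : b2 < Nat.size b := two_pow_lt_size hb
  have h2 := hb2 (Nat.size b) h1.le
  simp only [Polynomial.eval_mul, Polynomial.eval_X, Polynomial.eval_ofNat] at h2
  have h3 := two_pow_size_le hb'
  have h4 : ellB b ≤ Nat.size b * Nat.size b := Nat.mul_le_mul_left _ (size_le_self' _)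
  have h5 : 2 * Nat.size b * Nat.size b = 2 * (Nat.size b * Nat.size b) := by ring
  omega

theorem numB' (P : Polynomial ℕ) (C : ℕ) : ∃ b0, ∀ b, b0 ≤ b →
    P.eval (C * tauB b) < 2 ^ (Polynomial.X : Polynomial ℕ).eval b ∧
      ∀ n, (Polynomial.X : Polynomial ℕ).eval b ≤ n → P.eval (C * tauB b) < 2 ^ ellB n := by
  obtain ⟨b1, hb1⟩ := poly_tauB_lt C P
  obtain ⟨b2, hb2⟩ := ellB_le_self
  refine ⟨max b1 b2, fun b hb => ⟨?_, fun n hn => ?_⟩⟩
  · rw [Polynomial.eval_X]
    exact lt_of_lt_of_le (hb1 b (by omega)) (Nat.pow_le_pow_right (by norm_num) (hb2 b (by omega)))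
  · rw [Polynomial.eval_X] at hn
    exact lt_of_lt_of_le (hb1 b (by omega)) (Nat.pow_le_pow_right (by norm_num) (ellB_mono hn))

/-- every polynomial is below a multiple of `tauB` -/
theorem poly_le_tauB (P : Polynomial ℕ) : ∃ C, ∀ n, P.eval n ≤ C * tauB n := by
  obtain ⟨D, hD⟩ := exists_pow_bound P
  refine ⟨P.eval (2 ^ (2 ^ (2 ^ D)) + 2) + 1, fun n => ?_⟩
  have hpos := tauB_pos n
  rcases Nat.lt_or_ge n (2 ^ (2 ^ (2 ^ D)) + 2) with h | h
  · calc P.eval n ≤ P.eval (2 ^ (2 ^ (2 ^ D)) + 2) := poly_mono P h.le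
      _ ≤ (P.eval (2 ^ (2 ^ (2 ^ D)) + 2) + 1) * 1 := by omega
      _ ≤ _ := Nat.mul_le_mul_left _ hpos
  · have h1 : 2 ^ (2 ^ D) < Nat.size n := two_pow_lt_size (by omega)
    have h2 : 2 ^ D < Nat.size (Nat.size n) := two_pow_lt_size h1.le
    have h3 : D < Nat.size (Nat.size (Nat.size n)) := two_pow_lt_size h2.le
    have hn2 : 2 ≤ n := le_trans (Nat.le_add_left 2 _) h
    calc P.eval n ≤ n ^ D := hD n hn2
      _ ≤ n ^ Nat.size (Nat.size (Nat.size n)) :=
          Nat.pow_le_pow_right (le_trans (by norm_num) hn2) h3.le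
      _ ≤ (2 ^ Nat.size n) ^ Nat.size (Nat.size (Nat.size n)) :=
          Nat.pow_le_pow_left (Nat.lt_size_self n).le _
      _ = tauB n := by rw [← pow_mul]; rfl
      _ ≤ _ := Nat.le_mul_of_pos_left _ (by omega)

end Pool.Agent.H97.EW
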